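import Pool.Agent.H13.EV.Defs

/-!
# Module MOB of MP_6b5a9a_nt (even degree): substitution of Möbius transformations
-/

namespace Pool.Agent.H34.EV

open Pool.Agent.H13.EV

universe u

theorem mob : T_MOB.{u} := by
  classical
  intro k _ _ ι _ A B C' D hdet P hP
  set N := P.totalDegree with hN
  have hmN : ∀ m ∈ P.support, ∀ i, m i ≤ N := by
    intro m hm i
    have h1 : m i ≤ m.sum fun _ e => e := by
      by_cases hi : i ∈ m.support
      · exact Finset.single_le_sum (f := fun i => m i) (fun _ _ => Nat.zero_le _) hi
      · rw [Finsupp.notMem_support_iff.1 hi]; exact Nat.zero_le _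
    exact h1.trans (MvPolynomial.le_totalDegree hm)
  set Q : MvPolynomial ι k := ∑ m ∈ P.support, MvPolynomial.C (P.coeff m) *
    ∏ i, ((MvPolynomial.C (A i) * MvPolynomial.X i + MvPolynomial.C (B i)) ^ (m i) *
      (MvPolynomial.C (C' i) * MvPolynomial.X i + MvPolynomial.C (D i)) ^ (N - m i)) with hQ
  have hev : ∀ z : ι → k, (∀ i, C' i * z i + D i ≠ 0) → MvPolynomial.eval z Q =
      (∏ i, (C' i * z i + D i) ^ N) *
        MvPolynomial.eval (fun i => (A i * z i + B i) / (C' i * z i + D i)) P := by
    intro z hz
    rw [hQ, map_sum, MvPolynomial.eval_eq', Finset.mul_sum]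
    refine Finset.sum_congr rfl fun m hm => ?_
    simp only [map_mul, map_prod, map_pow, map_add, MvPolynomial.eval_C, MvPolynomial.eval_X]
    rw [mul_left_comm, ← Finset.prod_mul_distrib]
    congr 1
    refine Finset.prod_congr rfl fun i _ => ?_
    obtain ⟨r, hr⟩ := Nat.exists_eq_add_of_le (hmN m hm i)
    rw [hr, Nat.add_sub_cancel_left, pow_add, div_pow]
    have := pow_ne_zero (m i) (hz i)
    generalize C' i * z i + D i = t at this ⊢
    generalize A i * z i + B i = s
    field_simp
  refine ⟨Q, ?_, ?_⟩
  · -- `Q ≠ 0`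
    have hfac : ∀ i, (MvPolynomial.C (A i) - MvPolynomial.C (C' i) * MvPolynomial.X i :
        MvPolynomial ι k) ≠ 0 := by
      intro i h
      have h0 := congrArg (MvPolynomial.eval (fun _ => (0 : k))) h
      have h1 := congrArg (MvPolynomial.eval (fun _ => (1 : k))) h
      simp at h0
      simp [h0] at h1
      apply hdet i
      rw [h0, h1]; ring
    have hne : P * ∏ i, (MvPolynomial.C (A i) - MvPolynomial.C (C' i) * MvPolynomial.X i :
        MvPolynomial ι k) ≠ 0 := mul_ne_zero hP (Finset.prod_ne_zero_iff.2 fun i _ => hfac i)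
    obtain ⟨x, hx⟩ : ∃ x : ι → k, MvPolynomial.eval x (P * ∏ i, (MvPolynomial.C (A i) -
        MvPolynomial.C (C' i) * MvPolynomial.X i : MvPolynomial ι k)) ≠ 0 := by
      by_contra h
      push Not at h
      exact hne (MvPolynomial.funext fun x => by rw [h x, map_zero])
    rw [map_mul, map_prod] at hx
    have hx1 : MvPolynomial.eval x P ≠ 0 := left_ne_zero_of_mul hx
    have hx2 : ∀ i, A i - C' i * x i ≠ 0 := by
      intro i
      have := Finset.prod_ne_zero_iff.1 (right_ne_zero_of_mul hx) i (Finset.mem_univ i)
      simpa using this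
    intro hQ0
    set z : ι → k := fun i => (D i * x i - B i) / (A i - C' i * x i) with hz
    have hz1 : ∀ i, C' i * z i + D i = (A i * D i - B i * C' i) / (A i - C' i * x i) := by
      intro i
      have := hx2 i
      have e : z i * (A i - C' i * x i) = D i * x i - B i := div_mul_cancel₀ _ this
      rw [eq_div_iff this]
      linear_combination (C' i) * e
    have hz2 : ∀ i, A i * z i + B i = (A i * D i - B i * C' i) * x i / (A i - C' i * x i) := by
      intro i
      have := hx2 i
      have e : z i * (A i - C' i * x i) = D i * x i - B i := div_mul_cancel₀ _ this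
      rw [eq_div_iff this]
      linear_combination (A i) * e
    have hz0 : ∀ i, C' i * z i + D i ≠ 0 := by
      intro i
      rw [hz1]
      exact div_ne_zero (hdet i) (hx2 i)
    have hzx : (fun i => (A i * z i + B i) / (C' i * z i + D i)) = x := by
      funext i
      rw [hz1, hz2]
      have h1 := hx2 i
      have h2 := hdet i
      field_simp
    have h1 := hev z hz0
    rw [hQ0, map_zero, hzx] at h1
    exact mul_ne_zero (Finset.prod_ne_zero_iff.2 fun i _ => pow_ne_zero _ (hz0 i)) hx1 h1.symm
  · intro z hz hzQ h
    apply hzQ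
    rw [hev z hz, h, mul_zero]

end Pool.Agent.H34.EV
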