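import Pool.Agent.H13.EV.Defs

/-!
# Module NEAR of MP_6b5a9a_nt (even degree): a point near a Weierstrass point
-/

open Polynomial

namespace Pool.Agent.H34.EV

open Pool.Agent.H13.EV

universe u

/-- an element of large valuation -/
lemma exists_max' {M k : Type u} [Field M] [Field k] (φ : M →+* k) {Γ₀ : Type u}
    [LinearOrderedCommGroupWithZero Γ₀] (v : Valuation k Γ₀) (s : Finset M) :
    ∃ c : M, ∀ i ∈ s, v (φ i) ≤ v (φ c) := by
  classical
  rcases s.eq_empty_or_nonempty with rfl | hs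
  · exact ⟨0, by simp⟩
  · obtain ⟨c, -, hc⟩ := s.exists_max_image (fun i => v (φ i)) hs
    exact ⟨c, hc⟩

theorem near : T_NEAR.{u} := by
  classical
  intro k M _ _ φ Γ₀ _ v f κ δ κ' R hsep hκ hδ hκ' hR hroot
  set e : M := κ / δ with he
  have he0 : e ≠ 0 := div_ne_zero hκ hδ
  obtain ⟨h, hh⟩ := dvd_iff_isRoot.2 hroot
  obtain ⟨h1, hh1⟩ := X_sub_C_dvd_sub_C_eval (p := h) (a := e)
  set he' : M := h.eval e with hhe'
  have hhe0 : he' ≠ 0 := by
    obtain ⟨a, b, hab⟩ := hsep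
    have h2 := congrArg (eval e) hab
    rw [eval_add, eval_mul, eval_mul, hroot, mul_zero, zero_add, eval_one] at h2
    have h3 : eval e (derivative f) = he' := by
      rw [hh, derivative_mul]
      simp [hhe']
    rw [h3] at h2
    intro h0
    rw [h0, mul_zero] at h2
    exact zero_ne_one h2
  set w : M := he' * δ ^ 2 / (κ * κ') with hw
  have hw0 : w ≠ 0 := div_ne_zero (mul_ne_zero hhe0 (pow_ne_zero 2 hδ)) (mul_ne_zero hκ hκ')
  obtain ⟨c1, hc1⟩ := exists_max' φ v
    ((Finset.range (h1.natDegree + 1)).image fun j => h1.coeff j * e ^ j)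
  obtain ⟨β, hβ⟩ := exists_max' φ v {κ' / δ, c1 / w, R / w}
  refine ⟨β, fun z hz => ?_⟩
  have hz1 : v (φ (κ' / δ)) < v z := (hβ _ (by simp)).trans_lt hz
  have hz2 : v (φ (c1 / w)) < v z := (hβ _ (by simp)).trans_lt hz
  have hz3 : v (φ (R / w)) < v z := (hβ _ (by simp)).trans_lt hz
  have hvz : v z ≠ 0 := (lt_of_le_of_lt zero_le hz1).ne'
  have hz0 : z ≠ 0 := (v.ne_zero_iff).1 hvz
  have hφ : ∀ {x : M}, x ≠ 0 → φ x ≠ 0 := fun hx => (map_ne_zero φ).2 hx
  have hvφ : ∀ {x : M}, x ≠ 0 → v (φ x) ≠ 0 := fun hx => (v.ne_zero_iff).2 (hφ hx)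
  have hmul : ∀ {x : M}, v (φ (x / w)) < v z → v (φ x) < v (φ w) * v z := by
    intro x hx
    have h2 : φ x = φ w * φ (x / w) := by
      rw [← map_mul]; congr 1; field_simp
    rw [h2, map_mul]
    exact mul_lt_mul_of_pos_left hx (zero_lt_iff.2 (hvφ hw0))
  have hε : v (φ κ' / z) < v (φ δ) := by
    rw [map_div₀] at hz1 ⊢
    rw [map_div₀] at hz1
    rw [div_lt_iff₀ (zero_lt_iff.2 (hvφ hδ))] at hz1
    rw [div_lt_iff₀ (zero_lt_iff.2 hvz), mul_comm]
    exact hz1
  set D : k := φ δ + φ κ' / z with hD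
  have hvD : v D = v (φ δ) := Valuation.map_add_eq_of_lt_left v hε
  have hD0 : D ≠ 0 := by
    rw [← v.ne_zero_iff, hvD]; exact hvφ hδ
  have hvx : v (φ κ / D) = v (φ e) := by
    rw [map_div₀, hvD, he, map_div₀, map_div₀]
  refine ⟨hD0, hvx, ?_⟩
  set x : k := φ κ / D with hx
  set t : k := x - φ e with ht
  have hφκ := hφ hκ
  have hφδ := hφ hδ
  have hφκ' := hφ hκ'
  have hteq : t = -(φ κ * φ κ') / (z * D * φ δ) := by
    rw [ht, hx, he, map_div₀]
    rw [div_sub_div _ _ hD0 hφδ, div_eq_div_iff (mul_ne_zero hD0 hφδ)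
      (mul_ne_zero (mul_ne_zero hz0 hD0) hφδ)]
    have h2 : z * D = z * φ δ + φ κ' := by rw [hD]; field_simp
    linear_combination (-(φ κ) * D * φ δ) * h2
  have ht0 : t ≠ 0 := by
    rw [hteq]
    exact div_ne_zero (neg_ne_zero.2 (mul_ne_zero hφκ hφκ'))
      (mul_ne_zero (mul_ne_zero hz0 hD0) hφδ)
  have hf : (f.map φ).eval x = t * (φ he' + t * (h1.map φ).eval x) := by
    have h2 : h = C he' + (X - C e) * h1 := by rw [← hh1]; ring
    rw [hh, h2]
    simp only [Polynomial.map_mul, Polynomial.map_add, Polynomial.map_sub, map_X, map_C, eval_mul,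
      eval_add, eval_sub, eval_X, eval_C]
    rw [ht]
  have hq : (f.map φ).eval x / t ^ 2 = φ he' / t + (h1.map φ).eval x := by
    rw [hf]; field_simp
  have hv1 : v ((h1.map φ).eval x) ≤ v (φ c1) := by
    rw [eval_map, eval₂_eq_sum_range]
    refine Valuation.map_sum_le v fun j hj => ?_
    have h2 : v (φ (h1.coeff j) * x ^ j) = v (φ (h1.coeff j * e ^ j)) := by
      rw [map_mul, map_pow, hvx, map_mul, map_pow, map_mul, map_pow]
    rw [h2]
    exact hc1 _ (Finset.mem_image_of_mem _ hj)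
  have hv2 : v (φ he' / t) = v (φ w) * v z := by
    have h2 : φ he' / t = -(φ he' * φ δ * (z * D) / (φ κ * φ κ')) := by
      rw [hteq]; field_simp
    rw [h2, Valuation.map_neg, map_div₀, map_mul, map_mul, map_mul, map_mul, hvD, hw, map_div₀,
      map_mul, map_mul, map_pow, map_div₀, map_mul, map_mul, map_pow]
    rw [div_mul_eq_mul_div]
    congr 1
    rw [pow_two]
    ac_rfl
  have hlt : v ((h1.map φ).eval x) < v (φ he' / t) := by
    rw [hv2]; exact hv1.trans_lt (hmul hz2)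
  rw [hq, Valuation.map_add_eq_of_lt_left v hlt, hv2]
  exact hmul hz3

end Pool.Agent.H34.EV
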