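import Pool.Agent.H13.EV.Defs

/-!
# Module NORM of MP_6b5a9a_nt (even degree): from a principal product of points to an equation
-/

open Polynomial

namespace Pool.Agent.H34.EV

open Pool.Agent.H13.EV Pool.Agent.H62.HE QuadraticAlgebra

universe u

variable {k : Type u} [Field k]

lemma map_pt (f : k[X]) (x y : k) :
    Ideal.map (starRingEnd (HR k f)) (pt f x y) = pt f x (-y) := by
  unfold pt II
  rw [Ideal.map_span, Set.image_pair]
  have e1 : starRingEnd (HR k f) (⟨X - C x, 0⟩ : HR k f) = ⟨X - C x, 0⟩ := by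
    ext <;> simp [starRingEnd_apply]
  have e2 : starRingEnd (HR k f) (⟨-C y, 1⟩ : HR k f) = - (⟨-C (-y), 1⟩ : HR k f) := by
    ext <;> simp [starRingEnd_apply]
  rw [e1, e2, Ideal.span_insert, Ideal.span_insert (⟨X - C x, 0⟩ : HR k f),
    Ideal.span_singleton_neg]

lemma map_prod_ideal {R : Type u} [CommRing R] (σ : R →+* R) {ι : Type*} (s : Finset ι)
    (I : ι → Ideal R) : Ideal.map σ (∏ i ∈ s, I i) = ∏ i ∈ s, Ideal.map σ (I i) := by
  classical
  induction s using Finset.induction_on with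
  | empty => simp [Ideal.one_eq_top, Ideal.map_top]
  | insert a s ha ih => rw [Finset.prod_insert ha, Finset.prod_insert ha, Ideal.map_mul, ih]

lemma prod_span {R : Type u} [CommRing R] {ι : Type*} (s : Finset ι) (x : ι → R) :
    ∏ i ∈ s, Ideal.span {x i} = Ideal.span {∏ i ∈ s, x i} := by
  classical
  induction s using Finset.induction_on with
  | empty => simp [Ideal.one_eq_top]
  | insert a s ha ih =>
    rw [Finset.prod_insert ha, Finset.prod_insert ha, ih, Ideal.span_singleton_mul_span_singleton]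

theorem norm (hPT : T_PT.{u}) : T_NORM.{u} := by
  classical
  intro k _ f _ ι _ x y E h2 hsq hy hE hP
  obtain ⟨z, hz⟩ := hP
  rw [← Ideal.span] at hz
  set mm : k[X] := ∏ e ∈ E, (X - C e) with hmm
  set pp : k[X] := ∏ i, (X - C (x i)) with hpp
  have hstar : Ideal.map (starRingEnd (HR k f)) ((∏ i, pt f (x i) (y i)) * ∏ e ∈ E, pt f e 0) =
      (∏ i, pt f (x i) (-y i)) * ∏ e ∈ E, pt f e (-0) := by
    rw [Ideal.map_mul, map_prod_ideal, map_prod_ideal]
    simp only [map_pt]
  have h1 : ((∏ i, pt f (x i) (y i)) * ∏ e ∈ E, pt f e 0) *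
      Ideal.map (starRingEnd (HR k f)) ((∏ i, pt f (x i) (y i)) * ∏ e ∈ E, pt f e 0) =
      Ideal.span {algebraMap k[X] (HR k f) (pp * mm)} := by
    rw [hstar, mul_mul_mul_comm, ← Finset.prod_mul_distrib, ← Finset.prod_mul_distrib]
    have e1 : ∀ i ∈ (Finset.univ : Finset ι), pt f (x i) (y i) * pt f (x i) (-y i) =
        Ideal.span {algebraMap k[X] (HR k f) (X - C (x i))} :=
      fun i _ => hPT k f (x i) (y i) h2 hsq (hy i)
    have e2 : ∀ e ∈ E, pt f e 0 * pt f e (-0) =
        Ideal.span {algebraMap k[X] (HR k f) (X - C e)} :=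
      fun e he => hPT k f e 0 h2 hsq (by rw [hE e he]; ring)
    rw [Finset.prod_congr rfl e1, Finset.prod_congr rfl e2, prod_span, prod_span,
      Ideal.span_singleton_mul_span_singleton, map_mul, hpp, hmm, map_prod, map_prod]
  have h3 : Ideal.span {algebraMap k[X] (HR k f) (pp * mm)}
      = Ideal.span {algebraMap k[X] (HR k f) (QuadraticAlgebra.norm z)} := by
    rw [← h1, hz, Ideal.map_span, Set.image_singleton, starRingEnd_apply,
      Ideal.span_singleton_mul_span_singleton, ← algebraMap_norm_eq_mul_star]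
  have hd1 : pp * mm ∣ QuadraticAlgebra.norm z := by
    have : algebraMap k[X] (HR k f) (QuadraticAlgebra.norm z) ∈
        Ideal.span {algebraMap k[X] (HR k f) (pp * mm)} := by
      rw [h3]; exact Ideal.mem_span_singleton_self _
    rw [Ideal.mem_span_singleton] at this
    exact algebraMap_dvd_iff_dvd.1 this
  have hd2 : QuadraticAlgebra.norm z ∣ pp * mm := by
    have : algebraMap k[X] (HR k f) (pp * mm) ∈
        Ideal.span {algebraMap k[X] (HR k f) (QuadraticAlgebra.norm z)} := by
      rw [← h3]; exact Ideal.mem_span_singleton_self _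
    rw [Ideal.mem_span_singleton] at this
    exact algebraMap_dvd_iff_dvd.1 this
  obtain ⟨v, hv⟩ := associated_of_dvd_dvd hd1 hd2
  obtain ⟨c, hc0, hcv⟩ := Polynomial.isUnit_iff.1 v.isUnit
  have hn : z.re ^ 2 - f * z.im ^ 2 = C c * (pp * mm) := by
    have : QuadraticAlgebra.norm z = z.re ^ 2 - f * z.im ^ 2 := by
      rw [QuadraticAlgebra.norm_def]; ring
    rw [← this, ← hv, ← hcv, mul_comm]
  have hcop : (E : Set k).Pairwise (Function.onFun IsCoprime fun e => (X - C e : k[X])) := by
    intro a _ b _ hab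
    exact Polynomial.isCoprime_X_sub_C_of_isUnit_sub (isUnit_iff_ne_zero.2 (sub_ne_zero.2 hab))
  have hmf : mm ∣ f := Finset.prod_dvd_of_coprime hcop fun e he => dvd_iff_isRoot.2 (hE e he)
  have hma : mm ∣ z.re := by
    refine Finset.prod_dvd_of_coprime hcop fun e he => ?_
    have h5 : (X - C e) ∣ z.re ^ 2 := by
      have h6 : (X - C e) ∣ mm := Finset.dvd_prod_of_mem _ he
      have h7 : z.re ^ 2 = C c * (pp * mm) + f * z.im ^ 2 := by linear_combination hn
      rw [h7]
      exact dvd_add ((h6.mul_left _).mul_left _) ((h6.trans hmf).mul_right _)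
    exact (Polynomial.prime_X_sub_C e).dvd_of_dvd_pow h5
  obtain ⟨f2, hf2⟩ := hmf
  obtain ⟨a, ha⟩ := hma
  have hmm0 : mm ≠ 0 := by
    rw [hmm]; exact Finset.prod_ne_zero_iff.2 fun e _ => X_sub_C_ne_zero e
  refine ⟨f2, a, z.im, c, hf2, hc0.ne_zero, ?_⟩
  apply mul_left_cancel₀ hmm0
  rw [ha] at hn
  linear_combination hn + z.im ^ 2 * hf2

end Pool.Agent.H34.EV
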